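import Mathlib

/-!
# Hypersurfaces which contain a translate of a subtorus of codimension one
-/

set_option autoImplicit false

open Polynomial Finset

namespace Pool.Agent.R329.RelC

lemma charZero_of (F Ω : Type*) [Field F] [Field Ω] [CharZero Ω] [Algebra F Ω] : CharZero F := by
  refine ⟨fun a b hab => ?_⟩
  have h1 := congrArg (algebraMap F Ω) hab
  rw [map_natCast, map_natCast] at h1
  exact_mod_cast h1

section one

variable {F : Type*} [Field F] {n : ℕ}

/-- the polynomial in one variable obtained by specialising all variables but one -/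
noncomputable def spec (u : Fin n → F) (i : Fin n) (P : MvPolynomial (Fin n) F) : F[X] :=
  MvPolynomial.aeval (fun j => if j = i then (X : F[X]) else C (u j)) P

lemma spec_natDegree (u : Fin n → F) (i : Fin n) (P : MvPolynomial (Fin n) F) :
    (spec u i P).natDegree ≤ P.degreeOf i := by
  unfold spec
  rw [MvPolynomial.aeval_def, MvPolynomial.eval₂_eq']
  refine natDegree_sum_le_of_forall_le _ _ fun s hs => ?_
  have h1 : (∏ j, (if j = i then (X : F[X]) else C (u j)) ^ s j).natDegree ≤ s i := by
    refine (natDegree_prod_le _ _).trans ?_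
    have h2 : ∀ j ∈ (Finset.univ : Finset (Fin n)),
        ((if j = i then (X : F[X]) else C (u j)) ^ s j).natDegree ≤ if j = i then s i else 0 := by
      intro j _
      split_ifs with h
      · rw [natDegree_X_pow, h]
      · rw [← C_pow, natDegree_C]
    refine (Finset.sum_le_sum h2).trans ?_
    rw [Finset.sum_ite_eq' Finset.univ i (fun _ => s i)]
    simp
  have h3 : (algebraMap F F[X] (MvPolynomial.coeff s P)).natDegree = 0 := natDegree_C _
  refine (natDegree_mul_le).trans ?_
  rw [h3, zero_add]
  exact h1.trans (MvPolynomial.monomial_le_degreeOf i hs)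

variable {Ω : Type*} [Field Ω] [Algebra F Ω]

lemma spec_aeval (u : Fin n → F) (i : Fin n) (P : MvPolynomial (Fin n) F) (y : Ω) :
    aeval y (spec u i P) =
      MvPolynomial.aeval (fun j => if j = i then y else algebraMap F Ω (u j)) P := by
  unfold spec
  have h : ((aeval y : F[X] →ₐ[F] Ω).comp
      (MvPolynomial.aeval (fun j => if j = i then (X : F[X]) else C (u j)))) =
      MvPolynomial.aeval (fun j => if j = i then y else algebraMap F Ω (u j)) := by
    apply MvPolynomial.algHom_ext
    intro j
    rw [AlgHom.comp_apply, MvPolynomial.aeval_X, MvPolynomial.aeval_X]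
    split_ifs
    · exact aeval_X y
    · exact aeval_C y _
  rw [← h]
  rfl

end one

section two

variable {F : Type*} [Field F] {Ω : Type*} [Field Ω] [CharZero Ω] [IsAlgClosed Ω] [Algebra F Ω]
  [Normal F Ω] {n : ℕ}

/-- the degrees of a hypersurface over `F` which contains the translate `y ^ a = α` -/
theorem degreeOf_ge (P : MvPolynomial (Fin n) F) (hP : P ≠ 0) (a : Fin n → ℤ) (i : Fin n)
    {α : Ω} (hα : α ≠ 0)
    (hV : ∀ y : Fin n → Ω, (∀ j, y j ≠ 0) → ∏ j, y j ^ a j = α → MvPolynomial.aeval y P = 0) :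
    (minpoly F α).natDegree * (a i).natAbs ≤ P.degreeOf i := by
  classical
  have : CharZero F := charZero_of F Ω
  rcases eq_or_ne (a i) 0 with hai | hai
  · rw [hai]
    simp
  have hαF : IsIntegral F α := (Normal.isIntegral ‹Normal F Ω› α)
  set N := (a i).natAbs with hN
  have hN0 : 0 < N := Int.natAbs_pos.mpr hai
  -- a good specialisation
  obtain ⟨u, hu0, huP⟩ : ∃ u : Fin n → F, (∀ j, u j ≠ 0) ∧ MvPolynomial.eval u P ≠ 0 := by
    by_contra hcon
    push Not at hcon
    have h1 : P * ∏ j, MvPolynomial.X j = 0 := by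
      apply MvPolynomial.funext
      intro u
      rw [map_mul, map_prod, map_zero]
      by_cases hu : ∀ j, u j ≠ 0
      · rw [hcon u hu, zero_mul]
      · push Not at hu
        obtain ⟨j, hj⟩ := hu
        rw [Finset.prod_eq_zero (Finset.mem_univ j) (by rw [MvPolynomial.eval_X, hj]), mul_zero]
    rcases mul_eq_zero.mp h1 with h2 | h2
    · exact hP h2
    · rw [Finset.prod_eq_zero_iff] at h2
      obtain ⟨j, _, hj⟩ := h2
      exact MvPolynomial.X_ne_zero j hj
  set p := spec u i P with hp
  have hp0 : p ≠ 0 := by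
    intro h0
    have h1 := spec_aeval u i P (u i)
    rw [← hp, h0, map_zero] at h1
    apply huP
    rw [h1, MvPolynomial.aeval_eq_eval]
    congr 1
    have : (fun j => if j = i then u i else algebraMap F F (u j)) = u := by
      funext j
      split_ifs with h
      · rw [h]
      · rfl
    rw [this]
  set c : Ω := ∏ j ∈ Finset.univ.erase i, (algebraMap F Ω (u j)) ^ a j with hc
  have hc0 : c ≠ 0 := by
    rw [hc, Finset.prod_ne_zero_iff]
    intro j _
    exact zpow_ne_zero _ (by simpa using hu0 j)
  have hcσ : ∀ σ : Ω ≃ₐ[F] Ω, σ c = c := by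
    intro σ
    rw [hc, map_prod]
    refine Finset.prod_congr rfl fun j _ => ?_
    rw [map_zpow₀, AlgEquiv.commutes]
  -- `p` vanishes at the points of the translate
  have hp1 : ∀ y : Ω, y ≠ 0 → y ^ a i * c = α → aeval y p = 0 := by
    intro y hy hyc
    rw [hp, spec_aeval]
    apply hV
    · intro j
      split_ifs
      · exact hy
      · simpa using hu0 j
    · rw [← Finset.mul_prod_erase _ _ (Finset.mem_univ i), if_pos rfl, ← hyc, hc]
      congr 1
      refine Finset.prod_congr rfl fun j hj => ?_
      rw [if_neg (Finset.ne_of_mem_erase hj)]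
  have hp2 : ∀ z ∈ (minpoly F α).rootSet Ω, ∀ y : Ω, y ≠ 0 → y ^ a i * c = z → aeval y p = 0 := by
    intro z hz y hy hyc
    obtain ⟨σ, hσ⟩ := minpoly.exists_algEquiv_of_root hαF.isAlgebraic (mem_rootSet.mp hz).2
    -- `σ z = α`
    have h1 : σ y ^ a i * c = α := by
      rw [← hσ, ← hyc, map_mul, map_zpow₀, hcσ]
    have h2 := hp1 (σ y) (by simpa using hy) h1
    have h3 : aeval (σ y) p = σ (aeval y p) := aeval_algHom_apply (σ : Ω →ₐ[F] Ω) y p
    rw [h3] at h2
    simpa using h2
  have hz0 : ∀ z ∈ (minpoly F α).rootSet Ω, z ≠ 0 := by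
    intro z hz h0
    obtain ⟨σ, hσ⟩ := minpoly.exists_algEquiv_of_root hαF.isAlgebraic (mem_rootSet.mp hz).2
    rw [h0, map_zero] at hσ
    exact hα hσ.symm
  -- the roots
  have hsgn : ∃ w : Ω → Ω, (∀ z, z ≠ 0 → w z ≠ 0) ∧ (∀ z z', w z = w z' → z = z') ∧
      ∀ y z : Ω, y ≠ 0 → z ≠ 0 → y ^ N = w z → y ^ a i * c = z := by
    rcases lt_or_gt_of_ne hai with h | h
    · refine ⟨fun z => c * z⁻¹, fun z hz => mul_ne_zero hc0 (inv_ne_zero hz), ?_, ?_⟩
      · intro z z' h1
        exact inv_injective (mul_left_cancel₀ hc0 h1)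
      · intro y z hy hz h1
        have h2 : a i = -(N : ℤ) := by omega
        rw [h2, zpow_neg, zpow_natCast, h1]
        field_simp
    · refine ⟨fun z => z * c⁻¹, fun z hz => mul_ne_zero hz (inv_ne_zero hc0), ?_, ?_⟩
      · intro z z' h1
        exact mul_right_cancel₀ (inv_ne_zero hc0) h1
      · intro y z hy hz h1
        have h2 : a i = (N : ℤ) := by omega
        rw [h2, zpow_natCast, h1]
        field_simp
  obtain ⟨w, hw0, hwinj, hw⟩ := hsgn
  have hNΩ : NeZero (N : Ω) := ⟨by exact_mod_cast hN0.ne'⟩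
  obtain ⟨ζ, hζ⟩ := HasEnoughRootsOfUnity.exists_primitiveRoot Ω N
  set R := ((minpoly F α).aroots Ω).toFinset with hR
  have hRmem : ∀ z, z ∈ R ↔ z ∈ (minpoly F α).rootSet Ω := by
    intro z
    rw [hR, Multiset.mem_toFinset, mem_rootSet, mem_aroots]
  have hRcard : R.card = (minpoly F α).natDegree := by
    have h1 : Fintype.card ((minpoly F α).rootSet Ω) = (minpoly F α).natDegree := by
      apply card_rootSet_eq_natDegree
      · exact (minpoly.irreducible hαF).separable
      · exact IsAlgClosed.splits _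
    rw [← h1, ← Set.toFinset_card]
    congr 1
    ext z
    rw [hRmem, Set.mem_toFinset]
  let B : Finset Ω := R.biUnion fun z => (nthRoots N (w z)).toFinset
  have hBcard : B.card = R.card * N := by
    rw [Finset.card_biUnion]
    · rw [Finset.sum_congr rfl (g := fun _ => N), Finset.sum_const, smul_eq_mul]
      intro z hz
      have hwz := hw0 z (hz0 z ((hRmem z).mp hz))
      rw [Multiset.toFinset_card_of_nodup (hζ.nthRoots_nodup hwz), hζ.card_nthRoots]
      obtain ⟨b, hb⟩ := IsAlgClosed.exists_pow_nat_eq (w z) hN0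
      rw [if_pos ⟨b, hb⟩]
    · intro z hz z' hz' hne
      rw [Function.onFun, Finset.disjoint_left]
      intro y h1 h2
      rw [Multiset.mem_toFinset, mem_nthRoots hN0] at h1 h2
      exact hne (hwinj _ _ (h1.symm.trans h2))
  have hBroot : B ⊆ (p.aroots Ω).toFinset := by
    intro y hy
    obtain ⟨z, hz, hyz⟩ := Finset.mem_biUnion.mp hy
    rw [Multiset.mem_toFinset, mem_nthRoots hN0] at hyz
    have hz' := (hRmem z).mp hz
    have hz0' := hz0 z hz'
    have hy0 : y ≠ 0 := by
      rintro rfl
      rw [zero_pow hN0.ne'] at hyz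
      exact hw0 z hz0' hyz.symm
    rw [Multiset.mem_toFinset, mem_aroots]
    exact ⟨hp0, hp2 z hz' y hy0 (hw y z hy0 hz0' hyz)⟩
  calc (minpoly F α).natDegree * N = B.card := by rw [hBcard, hRcard]
    _ ≤ (p.aroots Ω).toFinset.card := Finset.card_le_card hBroot
    _ ≤ Multiset.card (p.aroots Ω) := Multiset.toFinset_card_le _
    _ ≤ p.natDegree := by
        refine (card_roots' _).trans ?_
        exact natDegree_map_le
    _ ≤ P.degreeOf i := spec_natDegree u i P

end two

section three

variable {F : Type*} [Field F] {Ω : Type*} [Field Ω] [CharZero Ω] [Algebra F Ω] {n : ℕ}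

/-- the polynomial `∏ y_j ^ (d (a_j)⁻) μ(y ^ a)` -/
noncomputable def pull (μ : F[X]) (a : Fin n → ℤ) : MvPolynomial (Fin n) F :=
  ∑ k ∈ Finset.range (μ.natDegree + 1), MvPolynomial.C (μ.coeff k) *
    ∏ j, MvPolynomial.X j ^ ((a j).toNat * k + (-a j).toNat * (μ.natDegree - k))

omit [CharZero Ω] in
lemma pull_aeval (μ : F[X]) (a : Fin n → ℤ) (y : Fin n → Ω) (hy : ∀ j, y j ≠ 0) :
    MvPolynomial.aeval y (pull μ a) =
      (∏ j, y j ^ ((-a j).toNat * μ.natDegree)) * aeval (∏ j, y j ^ a j) μ := by
  unfold pull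
  rw [map_sum, aeval_eq_sum_range, Finset.mul_sum]
  refine Finset.sum_congr rfl fun k hk => ?_
  have hk' : k ≤ μ.natDegree := by
    have := Finset.mem_range.mp hk
    omega
  rw [map_mul, MvPolynomial.aeval_C, map_prod, Algebra.smul_def, mul_left_comm]
  congr 1
  rw [← Finset.prod_pow, ← Finset.prod_mul_distrib]
  refine Finset.prod_congr rfl fun j _ => ?_
  rw [map_pow, MvPolynomial.aeval_X]
  have h1 : (((a j).toNat * k + (-a j).toNat * (μ.natDegree - k) : ℕ) : ℤ) =
      (((-a j).toNat * μ.natDegree : ℕ) : ℤ) + a j * k := by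
    push_cast [Nat.cast_sub hk']
    rcases le_total 0 (a j) with h | h
    · have e : (-a j).toNat = 0 := by omega
      have e' : ((a j).toNat : ℤ) = a j := by omega
      rw [e, e']
      push_cast
      ring
    · have e : (a j).toNat = 0 := by omega
      have e' : ((-a j).toNat : ℤ) = -a j := by omega
      rw [e, e']
      push_cast
      ring
  rw [← zpow_natCast (y j) ((a j).toNat * k + (-a j).toNat * (μ.natDegree - k)), h1,
    zpow_add₀ (hy j), zpow_natCast, zpow_mul, zpow_natCast]

lemma pull_degreeOf (μ : F[X]) (a : Fin n → ℤ) (i : Fin n) :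
    (pull μ a).degreeOf i ≤ μ.natDegree * (a i).natAbs := by
  unfold pull
  refine (MvPolynomial.degreeOf_sum_le i _ _).trans ?_
  refine Finset.sup_le fun k hk => ?_
  have hk' : k ≤ μ.natDegree := by
    have := Finset.mem_range.mp hk
    omega
  refine (MvPolynomial.degreeOf_C_mul_le _ _ _).trans ?_
  refine (MvPolynomial.degreeOf_prod_le _ _ _).trans ?_
  have h1 : ∀ j ∈ (Finset.univ : Finset (Fin n)), MvPolynomial.degreeOf i
      ((MvPolynomial.X j : MvPolynomial (Fin n) F) ^
        ((a j).toNat * k + (-a j).toNat * (μ.natDegree - k))) ≤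
      if j = i then μ.natDegree * (a i).natAbs else 0 := by
    intro j _
    refine (MvPolynomial.degreeOf_pow_le _ _ _).trans ?_
    rw [MvPolynomial.degreeOf_X]
    split_ifs with h h' h'
    · subst h
      rcases le_total 0 (a i) with h2 | h2
      · have e : (-a i).toNat = 0 := by omega
        have e' : (a i).natAbs = (a i).toNat := by omega
        rw [e, e', mul_one, zero_mul, add_zero, mul_comm]
        exact Nat.mul_le_mul_right _ hk'
      · have e : (a i).toNat = 0 := by omega
        have e' : (a i).natAbs = (-a i).toNat := by omega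
        rw [e, e', mul_one, zero_mul, zero_add, mul_comm]
        exact Nat.mul_le_mul_right _ (Nat.sub_le _ _)
    · exact absurd h.symm h'
    · exact absurd h'.symm h
    · simp
  refine (Finset.sum_le_sum h1).trans ?_
  rw [Finset.sum_ite_eq' Finset.univ i (fun _ => μ.natDegree * (a i).natAbs)]
  simp

include Ω in
lemma pull_ne_zero (μ : F[X]) (hμ : μ ≠ 0) (a : Fin n → ℤ) (i : Fin n) (hai : a i ≠ 0) :
    pull μ a ≠ 0 := by
  classical
  have : CharZero F := charZero_of F Ω
  intro h0
  -- the values at the powers of two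
  let f : ℕ → F := fun s => ((2 : F) ^ a i) ^ s
  have hf : Function.Injective f := by
    intro s t hst
    have h1 : (2 : F) ^ (a i * s) = (2 : F) ^ (a i * t) := by
      have h2 : ((2 : F) ^ a i) ^ s = ((2 : F) ^ a i) ^ t := hst
      rw [← zpow_natCast, ← zpow_natCast, ← zpow_mul, ← zpow_mul] at h2
      exact h2
    have h3 : (2 : ℚ) ^ (a i * s) = (2 : ℚ) ^ (a i * t) := by
      have h4 := h1
      have e : ∀ r : ℤ, ((((2 : ℚ) ^ r : ℚ)) : F) = (2 : F) ^ r := by
        intro r
        push_cast
        rfl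
      rw [← e, ← e] at h4
      exact_mod_cast h4
    have h5 : a i * (s : ℤ) = a i * t := zpow_right_injective₀ (by norm_num) (by norm_num) h3
    have h6 := mul_left_cancel₀ hai h5
    exact_mod_cast h6
  have h1 : ∀ s : ℕ, f s ∈ (μ.roots.toFinset : Set F) := by
    intro s
    have h2 := pull_aeval (Ω := F) μ a (fun j => if j = i then (2 : F) ^ s else 1) (by
      intro j
      split_ifs
      · exact pow_ne_zero _ two_ne_zero
      · exact one_ne_zero)
    rw [h0, map_zero] at h2
    rcases mul_eq_zero.mp h2.symm with h3 | h3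
    · rw [Finset.prod_eq_zero_iff] at h3
      obtain ⟨j, _, hj⟩ := h3
      exfalso
      revert hj
      split_ifs
      · exact pow_ne_zero _ (pow_ne_zero _ two_ne_zero)
      · simp
    · have h4 : ∏ j, (if j = i then (2 : F) ^ s else 1) ^ a j = f s := by
        rw [Finset.prod_eq_single i]
        · rw [if_pos rfl]
          show ((2 : F) ^ s) ^ a i = ((2 : F) ^ a i) ^ s
          rw [← zpow_natCast, ← zpow_natCast, ← zpow_mul, ← zpow_mul, mul_comm]
        · intro j _ hj
          rw [if_neg hj, one_zpow]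
        · intro h
          exact absurd (Finset.mem_univ i) h
      rw [h4] at h3
      rw [Finset.mem_coe, Multiset.mem_toFinset, mem_roots hμ, IsRoot.def]
      rwa [coe_aeval_eq_eval] at h3
  exact Set.infinite_of_injective_forall_mem hf h1 (Finset.finite_toSet _)

end three

end Pool.Agent.R329.RelC
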