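import Mathlib
import Pool.Agent.TH860.LP.Rel2
import Pool.Agent.H58R.Loc
import Pool.Agent.H58P.Ht

/-!
# The height of algebraic integers in terms of embeddings
-/

set_option autoImplicit false

open NumberField Height Module

namespace Pool.Agent.R329.RelC

open Pool.Agent.H388SL (lam)
open Pool.Agent.H58P (Qb ht)

lemma logHeight₁_integral {L : Type*} [Field L] [NumberField L] {z : L} (hz : IsIntegral ℤ z) :
    logHeight₁ z = lam z := by
  classical
  rw [NumberField.logHeight₁_eq]
  have h1 : ∑ᶠ v : FinitePlace L, Real.posLog (v z) = 0 := by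
    refine finsum_eq_zero_of_forall_eq_zero fun v => ?_
    have h2 : v z ≤ 1 := by
      rw [← FinitePlace.norm_embedding_eq]
      exact FinitePlace.norm_le_one L v.maximalIdeal (⟨z, hz⟩ : 𝓞 L)
    rw [Real.posLog_eq_log_max_one (apply_nonneg v z), max_eq_left h2, Real.log_one]
  rw [h1, add_zero]
  have h2 : ∀ σ : L →+* ℂ, Real.log (max 1 ‖σ z‖) = Real.posLog ((InfinitePlace.mk σ) z) := by
    intro σ
    rw [InfinitePlace.apply, Real.posLog_eq_log_max_one (norm_nonneg _)]
  have h3 : lam z = ∑ σ : L →+* ℂ, Real.log (max 1 ‖σ z‖) := by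
    unfold lam
    exact (Equiv.sum_comp (RingHom.equivRatAlgHom L ℂ).symm
      (fun σ : L →+* ℂ => Real.log (max 1 ‖σ z‖)))
  rw [h3, ← Finset.sum_fiberwise Finset.univ (fun σ : L →+* ℂ => InfinitePlace.mk σ)]
  refine Finset.sum_congr rfl fun w _ => ?_
  have h4 : ∑ σ ∈ Finset.univ.filter (fun σ : L →+* ℂ => InfinitePlace.mk σ = w),
      Real.log (max 1 ‖σ z‖) = ∑ σ ∈ Finset.univ.filter
        (fun σ : L →+* ℂ => InfinitePlace.mk σ = w), Real.posLog (w z) := by
    refine Finset.sum_congr rfl fun σ hσ => ?_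
    rw [h2, (Finset.mem_filter.1 hσ).2]
  rw [h4, Finset.sum_const, InfinitePlace.card_filter_mk_eq, nsmul_eq_mul]

lemma ht_integral {L : Type*} [Field L] [NumberField L] (φ : L →+* Qb) {z : L}
    (hz : IsIntegral ℤ z) : (finrank ℚ L : ℝ) * ht (φ z) = lam z := by
  have h1 := Pool.Agent.Helper259.AbsHt.absLogHeight_eq L φ ![1, z]
  have e : (fun i => φ (![1, z] i)) = ![1, φ z] := by
    funext i
    fin_cases i
    · simp
    · simp
  rw [e] at h1
  have h2 : logHeight ![1, z] = logHeight₁ z := by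
    rw [logHeight₁_eq_logHeight, logHeight_swap]
  have hpos : (0 : ℝ) < finrank ℚ L := by exact_mod_cast finrank_pos (R := ℚ) (M := L)
  rw [ht, h1, h2, logHeight₁_integral hz]
  field_simp

end Pool.Agent.R329.RelC
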