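import Mathlib
import Pool.Agent.TH860.LP.Rel2

/-!
# The determinant inequality relative to an arbitrary field, for several powers of the conjugates
-/

set_option autoImplicit false

open Polynomial Finset Module IntermediateField

namespace Pool.Agent.R329.RelC

open Pool.Agent.TH53.HR Pool.Agent.TH53.SL Pool.Agent.H388SL Pool.Agent.H389R3.LR
  Pool.Agent.H389R3.LP Pool.Agent.TH860.LP

lemma sum_fin (k : ℕ) : 2 * ∑ a : Fin k, (((a : ℕ) : ℝ) + 1) = k * (k + 1) := by
  rw [Fin.sum_univ_eq_sum_range (fun a : ℕ => ((a : ℝ) + 1)) k]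
  induction k with
  | zero => simp
  | succ k ih =>
    rw [Finset.sum_range_succ, mul_add, ih]
    push_cast
    ring

/-- **the inequality relative to an arbitrary field `F`** -/
theorem rel_multi (F : IntermediateField ℚ ℂ) {α : ℂ} (hα : IsIntegral ℤ α) (hh : 0 < hgt α)
    (q m k : ℕ) (hq : 1 < q) (hm : 0 < m) (hk : 0 < k) (G : ℂ[X]) (hGm : G.Monic)
    (hG0 : 0 < G.natDegree)
    (hval : ∀ z : ℂ, z ∈ (minpoly F α).rootSet ℂ → ∀ l : ℕ, 1 ≤ l →
      ∃ γ : ℂ, IsIntegral ℤ γ ∧ G.eval (z ^ (m * l)) = q * γ)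
    (hnd : ∀ z w : ℂ, z ∈ (minpoly F α).rootSet ℂ → w ∈ (minpoly F α).rootSet ℂ → z ≠ w →
      ∀ n : ℕ, 0 < n → z ^ n ≠ w ^ n) :
    ((k * (minpoly F α).natDegree : ℝ) - G.natDegree) * Real.log q ≤ G.natDegree *
      (Real.log (k * (minpoly F α).natDegree : ℝ) +
        k * (k + 1) * (m * ((minpoly F α).natDegree * hgt α))) := by
  classical
  set g := minpoly ℤ α with hg
  have hαF : IsIntegral F α := hα.tower_top
  set d := (minpoly F α).natDegree with hd
  have hd0 : 0 < d := minpoly.natDegree_pos hαF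
  -- the set of the conjugates
  set R := (minpoly F α).rootSet ℂ with hR
  have hcard : Fintype.card R = d := by
    apply card_rootSet_eq_natDegree
    · exact (minpoly.irreducible hαF).separable
    · exact IsAlgClosed.splits _
  -- the roots are conjugates over the rational field
  have hroot : ∀ z ∈ R, aeval z g = 0 := by
    intro z hz
    have h1 : minpoly F α ∣ g.map (algebraMap ℤ F) := by
      apply minpoly.dvd
      rw [aeval_map_algebraMap]
      exact minpoly.aeval ℤ α
    have h2 := (mem_rootSet.mp hz).2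
    obtain ⟨A, hA⟩ := h1
    have h3 : aeval z (g.map (algebraMap ℤ F)) = 0 := by
      rw [hA, map_mul, h2, zero_mul]
    rwa [aeval_map_algebraMap] at h3
  have hgm : g.Monic := minpoly.monic hα
  set L := IntermediateField.adjoin ℚ (g.rootSet ℂ) with hL
  have hzR : ∀ z ∈ R, z ∈ g.rootSet ℂ := fun z hz => mem_rootSet.mpr ⟨hgm.ne_zero, hroot z hz⟩
  have hint : ∀ z ∈ g.rootSet ℂ, IsIntegral ℤ z := fun z hz =>
    ⟨g, hgm, by rw [← Polynomial.aeval_def]; exact (mem_rootSet.mp hz).2⟩
  have : Finite (g.rootSet ℂ) := (rootSet_finite g ℂ).to_subtype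
  have hfin : FiniteDimensional ℚ L := IntermediateField.finiteDimensional_adjoin
    fun z hz => (hint z hz).tower_top
  have : NumberField L := { to_charZero := inferInstance, to_finiteDimensional := hfin }
  let e : Fin d ≃ R := (finCongr hcard.symm).trans (Fintype.equivFin R).symm
  let z' : Fin d → L := fun i => ⟨e i, IntermediateField.subset_adjoin ℚ _ (hzR _ (e i).2)⟩
  have hz'z : ∀ i, algebraMap L ℂ (z' i) = e i := fun i => rfl
  have hz'int : ∀ i, IsIntegral ℤ (z' i) := by
    intro i
    have h1 := hint _ (hzR _ (e i).2)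
    rw [← hz'z] at h1
    exact (isIntegral_algebraMap_iff (algebraMap L ℂ).injective).mp h1
  have hmin : ∀ i, minpoly ℤ (z' i) = g := by
    intro i
    have h1 : minpoly ℤ (e i : ℂ) = minpoly ℤ (z' i) := by
      rw [← hz'z]
      exact minpoly.algebraMap_eq (algebraMap L ℂ).injective (z' i)
    rw [← h1]
    have h2 := minpoly.isIntegrallyClosed_dvd (hint _ (hzR _ (e i).2)) (hroot _ (e i).2)
    have h3 : Associated (minpoly ℤ (e i : ℂ)) g :=
      (minpoly.irreducible (hint _ (hzR _ (e i).2))).associated_of_dvd (minpoly.irreducible hα) h2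
    exact eq_of_monic_of_associated (minpoly.monic (hint _ (hzR _ (e i).2))) hgm h3
  have hfr : (0 : ℝ) < finrank ℚ L := by exact_mod_cast finrank_pos (R := ℚ) (M := L)
  have hlam1 : ∀ i, lam (z' i) = finrank ℚ L * hgt α := by
    intro i
    rw [lam_root (hz'int i), hmin]
    rfl
  have hlampos : 0 < (finrank ℚ L : ℝ) * hgt α := mul_pos hfr hh
  let φ : L →ₐ[ℚ] ℂ := L.val
  have hφ : ∀ i, φ (z' i) = e i := fun i => rfl
  -- the points
  let f : Fin (k * d) ≃ Fin k × Fin d := finProdFinEquiv.symm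
  let w : Fin (k * d) → L := fun i => z' (f i).2 ^ (m * ((f i).1 + 1))
  have hwinj : Function.Injective w := by
    intro i j h
    have h1 := congrArg lam h
    simp only [w, lam_pow, hlam1] at h1
    have h2 : m * ((f i).1 + 1) = m * (((f j).1 : ℕ) + 1) := by
      have := mul_right_cancel₀ hlampos.ne' h1
      exact_mod_cast this
    have h3 : ((f i).1 : ℕ) + 1 = (f j).1 + 1 := Nat.eq_of_mul_eq_mul_left hm h2
    have h4 : (f i).2 = (f j).2 := by
      by_contra hne
      have h5 : (e (f i).2 : ℂ) ≠ e (f j).2 := fun h6 => hne (e.injective (Subtype.ext h6))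
      apply hnd _ _ (e (f i).2).2 (e (f j).2).2 h5 (m * ((f i).1 + 1)) (by positivity)
      have h6 := congrArg φ h
      simp only [w, map_pow, hφ] at h6
      rw [h6, h2]
    apply f.injective
    exact Prod.ext (Fin.ext (by omega)) h4
  have h := rel_core (Nat.mul_pos hk hd0) w (fun i => (hz'int _).pow _) hwinj φ G hGm hG0 q hq
    (fun i => by
      obtain ⟨γ, h1, h2⟩ := hval _ (e (f i).2).2 ((f i).1 + 1) (by omega)
      refine ⟨γ, h1, ?_⟩
      simp only [w, map_pow, hφ]
      exact h2)
  have hsum : 2 * ∑ i, lam (w i) = finrank ℚ L * (k * (k + 1) * (m * (d * hgt α))) := by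
    have h1 : ∑ i, lam (w i) = ∑ x : Fin k × Fin d, lam (z' x.2 ^ (m * (x.1 + 1))) :=
      Equiv.sum_comp f (fun x : Fin k × Fin d => lam (z' x.2 ^ (m * (x.1 + 1))))
    rw [h1, Fintype.sum_prod_type]
    have h2 : ∀ a : Fin k, ∑ b : Fin d, lam (z' b ^ (m * (a + 1))) =
        (((a : ℕ) : ℝ) + 1) * (m * (d * (finrank ℚ L * hgt α))) := by
      intro a
      simp only [lam_pow, hlam1]
      rw [Finset.sum_const, Finset.card_univ, Fintype.card_fin, nsmul_eq_mul]
      push_cast
      ring
    simp_rw [h2]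
    rw [← Finset.sum_mul, ← mul_assoc, sum_fin]
    ring
  rw [hsum] at h
  have h2 : (finrank ℚ L : ℝ) * (((k * d : ℝ) - G.natDegree) * Real.log q) ≤
      finrank ℚ L * (G.natDegree * (Real.log (k * d : ℝ) + k * (k + 1) * (m * (d * hgt α)))) := by
    push_cast at h
    refine h.trans (le_of_eq ?_)
    ring
  exact le_of_mul_le_mul_left h2 hfr

end Pool.Agent.R329.RelC
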