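import Mathlib
import Pool.Agent.R329.RelC.Multi

/-!
# Relative height bounds from congruences with products of cyclotomic polynomials
-/

set_option autoImplicit false

open Polynomial Finset Module IntermediateField

namespace Pool.Agent.R329.RelC

open Pool.Agent.TH860.LP

lemma aevalZ_int {z : ℂ} (hz : IsIntegral ℤ z) (Q : ℤ[X]) : IsIntegral ℤ (aeval z Q) :=
  adjoin_le_integralClosure hz (Polynomial.aeval_mem_adjoin_singleton ℤ z)

/-- the choice of the number of powers -/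
lemma opt {d D q : ℕ} (hd : 1 ≤ d) (hD : 1 ≤ D) (hq : 2 ≤ q) {H x : ℝ}
    (hx : x = d * Real.log q / D)
    (h : ∀ k : ℕ, 0 < k → ((k * d : ℝ) - D) * Real.log q ≤
      D * (Real.log (k * d : ℝ) + k * (k + 1) * H)) :
    min x (x ^ 2 / Real.log (2 * d * D * q)) / 20 ≤ H := by
  have hd' : (1 : ℝ) ≤ d := by exact_mod_cast hd
  have hD' : (1 : ℝ) ≤ D := by exact_mod_cast hD
  have hq' : (2 : ℝ) ≤ q := by exact_mod_cast hq
  have hlq : 2 / 3 ≤ Real.log q := by
    have h1 : Real.log 2 ≤ Real.log q := Real.log_le_log (by norm_num) hq'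
    have h2 := Real.log_two_gt_d9
    linarith
  have hx0 : 2 / 3 * d / D ≤ x := by
    rw [hx, div_le_div_iff_of_pos_right (by linarith)]
    nlinarith
  have hxpos : 0 < x := lt_of_lt_of_le (by positivity) hx0
  set Y : ℝ := 2 * d * D * q with hY
  have hY4 : 4 ≤ Y := by
    have : (1 : ℝ) ≤ d * D := by nlinarith
    rw [hY]
    nlinarith
  set Λ := Real.log Y with hΛ
  have hΛ0 : 0 < Λ := Real.log_pos (by linarith)
  have hΛY : Λ ≤ Y := by
    have := Real.log_le_sub_one_of_pos (x := Y) (by linarith)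
    linarith
  set M := max Λ x with hM
  have hMΛ : Λ ≤ M := le_max_left _ _
  have hMx : x ≤ M := le_max_right _ _
  have hM0 : 0 < M := lt_of_lt_of_le hΛ0 hMΛ
  set k := ⌈8 * M / x⌉₊ with hk
  have hk1 : 8 * M / x ≤ k := Nat.le_ceil _
  have hk2 : (k : ℝ) < 8 * M / x + 1 := Nat.ceil_lt_add_one (by positivity)
  have h8 : 8 ≤ 8 * M / x := by
    rw [le_div_iff₀ hxpos]
    linarith
  have hk0 : 0 < k := by
    have : (0 : ℝ) < k := by linarith
    exact_mod_cast this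
  have hkR : (8 : ℝ) ≤ k := h8.trans hk1
  have hkx : 8 * M ≤ k * x := by
    rwa [div_le_iff₀ hxpos] at hk1
  -- `k ≤ 25 D ^ 2 q`
  have hkle : (k : ℝ) ≤ 25 * D ^ 2 * q := by
    have h1 : 8 * M / x ≤ 24 * D ^ 2 * q := by
      rcases le_total x Λ with h2 | h2
      · have e : M = Λ := max_eq_left h2
        rw [e, div_le_iff₀ hxpos]
        have h3 : 24 * (D : ℝ) ^ 2 * q * (2 / 3 * d / D) ≤ 24 * D ^ 2 * q * x :=
          mul_le_mul_of_nonneg_left hx0 (by positivity)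
        have h4 : 24 * (D : ℝ) ^ 2 * q * (2 / 3 * d / D) = 8 * Y := by
          rw [hY]
          field_simp
          ring
        linarith
      · have e : M = x := max_eq_right h2
        rw [e, mul_div_assoc, div_self hxpos.ne', mul_one]
        have : (1 : ℝ) ≤ D ^ 2 := one_le_pow₀ hD'
        nlinarith
    have h2 : (1 : ℝ) ≤ D ^ 2 * q := by
      have : (1 : ℝ) ≤ D ^ 2 := one_le_pow₀ hD'
      nlinarith
    linarith
  have hlog : Real.log (k * d : ℝ) + Real.log q ≤ 4 * M := by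
    have h1 : Real.log (k * d : ℝ) + Real.log q = Real.log (k * d * q : ℝ) := by
      rw [← Real.log_mul (by positivity) (by positivity)]
    have h2 : (k * d * q : ℝ) ≤ Y ^ 4 := by
      have h3 : (k * d * q : ℝ) ≤ 25 * D ^ 2 * q * d * q := by gcongr
      refine h3.trans ?_
      have h4 : Y ^ 4 = 16 * ((d : ℝ) ^ 4 * (D ^ 2 * D ^ 2) * (q ^ 2 * q ^ 2)) := by
        rw [hY]
        ring
      rw [h4]
      have h5 : (d : ℝ) ≤ d ^ 4 := le_self_pow₀ hd' (by norm_num)
      have h6 : (1 : ℝ) ≤ D ^ 2 := one_le_pow₀ hD'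
      have h7 : (4 : ℝ) ≤ q ^ 2 := by nlinarith
      calc 25 * (D : ℝ) ^ 2 * q * d * q = 25 * (d * (D ^ 2 * 1) * (q ^ 2 * 1)) := by ring
        _ ≤ 25 * ((d : ℝ) ^ 4 * (D ^ 2 * D ^ 2) * (q ^ 2 * 1)) := by gcongr
        _ ≤ 16 * ((d : ℝ) ^ 4 * (D ^ 2 * D ^ 2) * (q ^ 2 * q ^ 2)) := by
          have h8 : 0 ≤ (d : ℝ) ^ 4 * (D ^ 2 * D ^ 2) * q ^ 2 := by positivity
          nlinarith
    rw [h1]
    calc Real.log (k * d * q : ℝ) ≤ Real.log (Y ^ 4) := Real.log_le_log (by positivity) h2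
      _ = 4 * Λ := by rw [Real.log_pow, ← hΛ]; push_cast; ring
      _ ≤ 4 * M := by linarith
  have hmain := h k hk0
  have h9 : (k : ℝ) * x - Real.log q ≤ Real.log (k * d : ℝ) + k * (k + 1) * H := by
    have e : ((k * d : ℝ) - D) * Real.log q = D * (k * x - Real.log q) := by
      rw [hx]
      field_simp
    rw [e] at hmain
    exact le_of_mul_le_mul_left hmain (by linarith)
  have h10 : (k : ℝ) * (x / 2) ≤ k * ((k + 1) * H) := by
    have : (k : ℝ) * x / 2 ≤ k * x - 4 * M := by linarith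
    nlinarith
  have h11 : x / 2 ≤ (k + 1) * H := le_of_mul_le_mul_left h10 (by linarith)
  have hH0 : 0 < H := by
    by_contra hcon
    push Not at hcon
    have : ((k : ℝ) + 1) * H ≤ 0 := mul_nonpos_of_nonneg_of_nonpos (by positivity) hcon
    linarith
  have h12 : (k : ℝ) + 1 ≤ 10 * M / x := by
    have h1 : 1 ≤ M / x := by
      rw [le_div_iff₀ hxpos]
      linarith
    have h2 : 8 * M / x = 8 * (M / x) := by ring
    have h3 : 10 * M / x = 10 * (M / x) := by ring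
    rw [h2] at hk2
    rw [h3]
    linarith
  have h13 : x ^ 2 / M / 20 ≤ H := by
    have h1 : x / 2 ≤ 10 * M / x * H := h11.trans (mul_le_mul_of_nonneg_right h12 hH0.le)
    rw [div_div, div_le_iff₀ (by positivity)]
    have h2 : 10 * M / x * H * x = 10 * M * H := by
      field_simp
    nlinarith
  refine le_trans (div_le_div_of_nonneg_right ?_ (by norm_num)) h13
  rcases le_total x Λ with h2 | h2
  · rw [hM, max_eq_left h2]
    exact min_le_right _ _
  · rw [hM, max_eq_right h2]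
    refine (min_le_left _ _).trans (le_of_eq ?_)
    field_simp

/-- divisibility by `q` of an integral polynomial at `α ^ m` carries over to the conjugates -/
lemma conj_val (F : IntermediateField ℚ ℂ) {α : ℂ} (hα : IsIntegral ℤ α) (T : ℤ[X]) {q m : ℕ}
    (hq : q ≠ 0) (h : ∃ γ : ℂ, IsIntegral ℤ γ ∧ aeval (α ^ m) T = q * γ) {z : ℂ}
    (hz : z ∈ (minpoly F α).rootSet ℂ) : ∃ γ : ℂ, IsIntegral ℤ γ ∧ aeval (z ^ m) T = q * γ := by
  have hαF : IsIntegral F α := hα.tower_top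
  have hqC : (q : ℂ) ≠ 0 := by exact_mod_cast hq
  obtain ⟨γ, hγ, hγe⟩ := h
  have hz0 : aeval z (minpoly F α) = 0 := (mem_rootSet.mp hz).2
  let ψ : F⟮α⟯ →ₐ[F] ℂ := (IntermediateField.algHomAdjoinIntegralEquiv F hαF).symm
    ⟨z, by rw [mem_aroots]; exact ⟨minpoly.ne_zero hαF, hz0⟩⟩
  have hψ : ψ (AdjoinSimple.gen F α) = z :=
    IntermediateField.algHomAdjoinIntegralEquiv_symm_apply_gen F hαF _
  set g : F⟮α⟯ := AdjoinSimple.gen F α with hg
  have hgα : algebraMap F⟮α⟯ ℂ g = α := AdjoinSimple.algebraMap_gen F α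
  set γ₁ : F⟮α⟯ := aeval (g ^ m) T / q with hγ₁
  have h1 : ∀ (φ : F⟮α⟯ →+* ℂ), φ γ₁ = aeval (φ g ^ m) T / q := by
    intro φ
    rw [hγ₁, map_div₀, map_natCast]
    congr 1
    rw [aeval_def, aeval_def, hom_eval₂, map_pow]
    congr 1
    exact RingHom.ext_int _ _
  have h2 : algebraMap F⟮α⟯ ℂ γ₁ = γ := by
    rw [h1, hgα, hγe]
    field_simp
  have h3 : IsIntegral ℤ γ₁ := by
    rw [← isIntegral_algebraMap_iff (algebraMap F⟮α⟯ ℂ).injective, h2]
    exact hγ
  refine ⟨(ψ : F⟮α⟯ →+* ℂ) γ₁, h3.map ((ψ : F⟮α⟯ →+* ℂ).toIntAlgHom), ?_⟩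
  rw [h1]
  have h4 : (ψ : F⟮α⟯ →+* ℂ) g = z := hψ
  rw [h4]
  field_simp

/-- **Divisibility of values of polynomials `T` such that `T(X)` divides `T(X ^ l)`, relative to an
arbitrary field.** -/
theorem main (F : IntermediateField ℚ ℂ) {α : ℂ} (hα : IsIntegral ℤ α) (hh : 0 < hgt α)
    (hnd : ∀ z w : ℂ, z ∈ (minpoly F α).rootSet ℂ → w ∈ (minpoly F α).rootSet ℂ → z ≠ w →
      ∀ n : ℕ, 0 < n → z ^ n ≠ w ^ n)
    (T : ℤ[X]) (hTm : T.Monic) (hT0 : 1 ≤ T.natDegree)
    (hT : ∀ l : ℕ, 1 ≤ l → T ∣ T.comp (X ^ l)) (q m : ℕ) (hq : 2 ≤ q) (hm : 1 ≤ m)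
    (hval : ∃ γ : ℂ, IsIntegral ℤ γ ∧ aeval (α ^ m) T = q * γ)
    (x : ℝ) (hx : x = (minpoly F α).natDegree * Real.log q / T.natDegree) :
    min x (x ^ 2 / Real.log (2 * (minpoly F α).natDegree * T.natDegree * q)) / 20 ≤
      m * ((minpoly F α).natDegree * hgt α) := by
  have hαF : IsIntegral F α := hα.tower_top
  have hGd : (T.map (Int.castRingHom ℂ)).natDegree = T.natDegree := hTm.natDegree_map _
  refine opt (minpoly.natDegree_pos hαF) hT0 hq hx fun k hk => ?_
  have h := rel_multi F hα hh q m k (by omega) (by omega) hk (T.map (Int.castRingHom ℂ))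
    (hTm.map _) (by rw [hGd]; exact hT0) (fun z hz l hl => by
      obtain ⟨U, hU⟩ := hT l hl
      have hzi := root_integral hα hz
      obtain ⟨γ, hγ, hγe⟩ := conj_val F hα T (by omega) hval hz
      have h3 : aeval (z ^ (m * l)) T = aeval (z ^ m) T * aeval (z ^ m) U := by
        rw [← map_mul, ← hU, aeval_comp, map_pow, aeval_X, ← pow_mul]
      refine ⟨γ * aeval (z ^ m) U, hγ.mul (aevalZ_int (hzi.pow m) U), ?_⟩
      rw [← algebraMap_int_eq, eval_map_algebraMap, h3, hγe]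
      ring) hnd
  rw [hGd] at h
  exact h

end Pool.Agent.R329.RelC
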