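import Mathlib
import Pool.Agent.R329.RelC.Main
import Pool.Agent.R329.RelC.HtInt

/-!
# The determinant inequality relative to a subfield of an algebraically closed field
-/

set_option autoImplicit false

open Polynomial Finset Module IntermediateField

namespace Pool.Agent.R329.RelC

open Pool.Agent.TH53.HR Pool.Agent.TH53.SL Pool.Agent.H388SL Pool.Agent.H389R3.LR
  Pool.Agent.H389R3.LP Pool.Agent.TH860.LP

section

variable {Ω : Type} [Field Ω] [CharZero Ω] [IsAlgClosed Ω] {F : Type*} [Field F] [Algebra F Ω]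

/-- **the inequality relative to a field `F`** -/
theorem rel_multiO (H : Ω → ℝ)
    (hH : ∀ (L : Type) [Field L] [NumberField L] (φ : L →+* Ω) (z : L), IsIntegral ℤ z →
      (finrank ℚ L : ℝ) * H (φ z) = lam z)
    {α : Ω} (hα : IsIntegral ℤ α) (hh : 0 < H α)
    (q m k : ℕ) (hq : 1 < q) (hm : 0 < m) (hk : 0 < k) (G : ℤ[X]) (hGm : G.Monic)
    (hG0 : 0 < G.natDegree)
    (hval : ∀ z : Ω, z ∈ (minpoly F α).rootSet Ω → ∀ l : ℕ, 1 ≤ l →
      ∃ γ : Ω, IsIntegral ℤ γ ∧ aeval (z ^ (m * l)) G = q * γ)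
    (hnd : ∀ z w : Ω, z ∈ (minpoly F α).rootSet Ω → w ∈ (minpoly F α).rootSet Ω → z ≠ w →
      ∀ n : ℕ, 0 < n → z ^ n ≠ w ^ n) :
    ((k * (minpoly F α).natDegree : ℝ) - G.natDegree) * Real.log q ≤ G.natDegree *
      (Real.log (k * (minpoly F α).natDegree : ℝ) +
        k * (k + 1) * (m * ((minpoly F α).natDegree * H α))) := by
  classical
  set g := minpoly ℤ α with hg
  have hαF : IsIntegral F α := hα.tower_top
  set d := (minpoly F α).natDegree with hd
  have hd0 : 0 < d := minpoly.natDegree_pos hαF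
  -- the set of the conjugates
  set R := (minpoly F α).rootSet Ω with hR
  have : CharZero F := by
    have hinj : Function.Injective (algebraMap F Ω) := (algebraMap F Ω).injective
    refine ⟨fun a b hab => ?_⟩
    have h1 := congrArg (algebraMap F Ω) hab
    rw [map_natCast, map_natCast] at h1
    exact_mod_cast h1
  have hcard : Fintype.card R = d := by
    apply card_rootSet_eq_natDegree
    · exact (minpoly.irreducible hαF).separable
    · exact IsAlgClosed.splits _
  -- the roots are conjugates over the rational field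
  have hroot : ∀ z ∈ R, aeval z g = 0 := by
    intro z hz
    have h1 : minpoly F α ∣ g.map (algebraMap ℤ F) := by
      apply minpoly.dvd
      rw [aeval_map_algebraMap]
      exact minpoly.aeval ℤ α
    have h2 := (mem_rootSet.mp hz).2
    obtain ⟨A, hA⟩ := h1
    have h3 : aeval z (g.map (algebraMap ℤ F)) = 0 := by
      rw [hA, map_mul, h2, zero_mul]
    rwa [aeval_map_algebraMap] at h3
  have hgm : g.Monic := minpoly.monic hα
  set L := IntermediateField.adjoin ℚ (g.rootSet Ω) with hL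
  have hzR : ∀ z ∈ R, z ∈ g.rootSet Ω := fun z hz => mem_rootSet.mpr ⟨hgm.ne_zero, hroot z hz⟩
  have hint : ∀ z ∈ g.rootSet Ω, IsIntegral ℤ z := fun z hz =>
    ⟨g, hgm, by rw [← Polynomial.aeval_def]; exact (mem_rootSet.mp hz).2⟩
  have : Finite (g.rootSet Ω) := (rootSet_finite g Ω).to_subtype
  have hfin : FiniteDimensional ℚ L := IntermediateField.finiteDimensional_adjoin
    fun z hz => (hint z hz).tower_top
  have : NumberField L := { to_charZero := inferInstance, to_finiteDimensional := hfin }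
  let e : Fin d ≃ R := (finCongr hcard.symm).trans (Fintype.equivFin R).symm
  let z' : Fin d → L := fun i => ⟨e i, IntermediateField.subset_adjoin ℚ _ (hzR _ (e i).2)⟩
  have hz'z : ∀ i, algebraMap L Ω (z' i) = e i := fun i => rfl
  have hz'int : ∀ i, IsIntegral ℤ (z' i) := by
    intro i
    have h1 := hint _ (hzR _ (e i).2)
    rw [← hz'z] at h1
    exact (isIntegral_algebraMap_iff (algebraMap L Ω).injective).mp h1
  have hmin : ∀ i, minpoly ℤ (z' i) = g := by
    intro i
    have h1 : minpoly ℤ (e i : Ω) = minpoly ℤ (z' i) := by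
      rw [← hz'z]
      exact minpoly.algebraMap_eq (algebraMap L Ω).injective (z' i)
    rw [← h1]
    have h2 := minpoly.isIntegrallyClosed_dvd (hint _ (hzR _ (e i).2)) (hroot _ (e i).2)
    have h3 : Associated (minpoly ℤ (e i : Ω)) g :=
      (minpoly.irreducible (hint _ (hzR _ (e i).2))).associated_of_dvd (minpoly.irreducible hα) h2
    exact eq_of_monic_of_associated (minpoly.monic (hint _ (hzR _ (e i).2))) hgm h3
  have hfr : (0 : ℝ) < finrank ℚ L := by exact_mod_cast finrank_pos (R := ℚ) (M := L)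
  have hαR : α ∈ R := by
    rw [hR, mem_rootSet]
    exact ⟨minpoly.ne_zero hαF, minpoly.aeval F α⟩
  have hlam1 : ∀ i, lam (z' i) = finrank ℚ L * H α := by
    intro i
    have h1 : lam (z' i) = lam (z' (e.symm ⟨α, hαR⟩)) := by
      rw [lam_root (hz'int i), lam_root (hz'int _), hmin, hmin]
    rw [h1, ← hH L (algebraMap L Ω) _ (hz'int _), hz'z, e.apply_symm_apply]
  have hlampos : 0 < (finrank ℚ L : ℝ) * H α := mul_pos hfr hh
  let φ : L →ₐ[ℚ] ℂ := IsAlgClosed.lift
  -- the points
  let f : Fin (k * d) ≃ Fin k × Fin d := finProdFinEquiv.symm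
  let w : Fin (k * d) → L := fun i => z' (f i).2 ^ (m * ((f i).1 + 1))
  have hwinj : Function.Injective w := by
    intro i j h
    have h1 := congrArg lam h
    simp only [w, lam_pow, hlam1] at h1
    have h2 : m * ((f i).1 + 1) = m * (((f j).1 : ℕ) + 1) := by
      have := mul_right_cancel₀ hlampos.ne' h1
      exact_mod_cast this
    have h3 : ((f i).1 : ℕ) + 1 = (f j).1 + 1 := Nat.eq_of_mul_eq_mul_left hm h2
    have h4 : (f i).2 = (f j).2 := by
      by_contra hne
      have h5 : (e (f i).2 : Ω) ≠ e (f j).2 := fun h6 => hne (e.injective (Subtype.ext h6))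
      apply hnd _ _ (e (f i).2).2 (e (f j).2).2 h5 (m * ((f i).1 + 1)) (by positivity)
      have h6 := congrArg (algebraMap L Ω) h
      simp only [w, map_pow, hz'z] at h6
      rw [h6, h2]
    apply f.injective
    exact Prod.ext (Fin.ext (by omega)) h4
  have hGd : (G.map (Int.castRingHom ℂ)).natDegree = G.natDegree := hGm.natDegree_map _
  have h := rel_core (Nat.mul_pos hk hd0) w (fun i => (hz'int _).pow _) hwinj φ
    (G.map (Int.castRingHom ℂ)) (hGm.map _) (by rw [hGd]; exact hG0) q hq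
    (fun i => by
      obtain ⟨γ, h1, h2⟩ := hval _ (e (f i).2).2 ((f i).1 + 1) (by omega)
      have hqL : (q : L) ≠ 0 := by
        have : q ≠ 0 := by omega
        exact_mod_cast this
      have hqO : (q : Ω) ≠ 0 := by
        have : q ≠ 0 := by omega
        exact_mod_cast this
      have h3 : algebraMap L Ω (aeval (w i) G / q) = γ := by
        rw [map_div₀, map_natCast, ← aeval_algebraMap_apply]
        simp only [w, map_pow, hz'z]
        rw [h2]
        field_simp
      have h4 : IsIntegral ℤ (aeval (w i) G / q : L) := by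
        rw [← isIntegral_algebraMap_iff (algebraMap L Ω).injective, h3]
        exact h1
      refine ⟨φ (aeval (w i) G / q), h4.map (φ : L →+* ℂ).toIntAlgHom, ?_⟩
      rw [map_div₀, map_natCast]
      have h5 : (G.map (Int.castRingHom ℂ)).eval (φ (w i)) = φ (aeval (w i) G) := by
        rw [← algebraMap_int_eq, eval_map_algebraMap]
        exact aeval_algHom_apply ((φ : L →+* ℂ).toIntAlgHom) (w i) G
      have hqC : (q : ℂ) ≠ 0 := by
        have : q ≠ 0 := by omega
        exact_mod_cast this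
      rw [h5]
      field_simp)
  have hsum : 2 * ∑ i, lam (w i) = finrank ℚ L * (k * (k + 1) * (m * (d * H α))) := by
    have h1 : ∑ i, lam (w i) = ∑ x : Fin k × Fin d, lam (z' x.2 ^ (m * (x.1 + 1))) :=
      Equiv.sum_comp f (fun x : Fin k × Fin d => lam (z' x.2 ^ (m * (x.1 + 1))))
    rw [h1, Fintype.sum_prod_type]
    have h2 : ∀ a : Fin k, ∑ b : Fin d, lam (z' b ^ (m * (a + 1))) =
        (((a : ℕ) : ℝ) + 1) * (m * (d * (finrank ℚ L * H α))) := by
      intro a
      simp only [lam_pow, hlam1]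
      rw [Finset.sum_const, Finset.card_univ, Fintype.card_fin, nsmul_eq_mul]
      push_cast
      ring
    simp_rw [h2]
    rw [← Finset.sum_mul, ← mul_assoc, sum_fin]
    ring
  rw [hsum, hGd] at h
  have h2 : (finrank ℚ L : ℝ) * (((k * d : ℝ) - G.natDegree) * Real.log q) ≤
      finrank ℚ L * (G.natDegree * (Real.log (k * d : ℝ) + k * (k + 1) * (m * (d * H α)))) := by
    push_cast at h
    refine h.trans (le_of_eq ?_)
    ring
  exact le_of_mul_le_mul_left h2 hfr

end

section

variable {Ω : Type*} [Field Ω] [CharZero Ω] {F : Type*} [Field F] [Algebra F Ω]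

lemma aevalO_int {z : Ω} (hz : IsIntegral ℤ z) (Q : ℤ[X]) : IsIntegral ℤ (aeval z Q) :=
  adjoin_le_integralClosure hz (Polynomial.aeval_mem_adjoin_singleton ℤ z)

/-- divisibility by `q` of an integral polynomial at `α ^ m` carries over to the conjugates -/
lemma conj_valO {α : Ω} (hα : IsIntegral ℤ α) (T : ℤ[X]) {q m : ℕ}
    (hq : q ≠ 0) (h : ∃ γ : Ω, IsIntegral ℤ γ ∧ aeval (α ^ m) T = q * γ) {z : Ω}
    (hz : z ∈ (minpoly F α).rootSet Ω) : ∃ γ : Ω, IsIntegral ℤ γ ∧ aeval (z ^ m) T = q * γ := by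
  have hαF : IsIntegral F α := hα.tower_top
  have hqC : (q : Ω) ≠ 0 := by exact_mod_cast hq
  obtain ⟨γ, hγ, hγe⟩ := h
  have hz0 : aeval z (minpoly F α) = 0 := (mem_rootSet.mp hz).2
  let ψ : F⟮α⟯ →ₐ[F] Ω := (IntermediateField.algHomAdjoinIntegralEquiv F hαF).symm
    ⟨z, by rw [mem_aroots]; exact ⟨minpoly.ne_zero hαF, hz0⟩⟩
  have hψ : ψ (AdjoinSimple.gen F α) = z :=
    IntermediateField.algHomAdjoinIntegralEquiv_symm_apply_gen F hαF _
  set g : F⟮α⟯ := AdjoinSimple.gen F α with hg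
  have hgα : algebraMap F⟮α⟯ Ω g = α := AdjoinSimple.algebraMap_gen F α
  set γ₁ : F⟮α⟯ := aeval (g ^ m) T / q with hγ₁
  have h1 : ∀ (φ : F⟮α⟯ →+* Ω), φ γ₁ = aeval (φ g ^ m) T / q := by
    intro φ
    rw [hγ₁, map_div₀, map_natCast]
    congr 1
    rw [aeval_def, aeval_def, hom_eval₂, map_pow]
    congr 1
    exact RingHom.ext_int _ _
  have h2 : algebraMap F⟮α⟯ Ω γ₁ = γ := by
    rw [h1, hgα, hγe]
    field_simp
  have h3 : IsIntegral ℤ γ₁ := by
    rw [← isIntegral_algebraMap_iff (algebraMap F⟮α⟯ Ω).injective, h2]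
    exact hγ
  refine ⟨(ψ : F⟮α⟯ →+* Ω) γ₁, h3.map ((ψ : F⟮α⟯ →+* Ω).toIntAlgHom), ?_⟩
  rw [h1]
  have h4 : (ψ : F⟮α⟯ →+* Ω) g = z := hψ
  rw [h4]
  field_simp

lemma root_integralO {α : Ω} (hα : IsIntegral ℤ α) {z : Ω}
    (hz : z ∈ (minpoly F α).rootSet Ω) : IsIntegral ℤ z := by
  have h1 : minpoly F α ∣ (minpoly ℤ α).map (algebraMap ℤ F) := by
    apply minpoly.dvd
    rw [aeval_map_algebraMap]
    exact minpoly.aeval ℤ α
  have h2 := (mem_rootSet.mp hz).2
  obtain ⟨A, hA⟩ := h1
  have h3 : aeval z ((minpoly ℤ α).map (algebraMap ℤ F)) = 0 := by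
    rw [hA, map_mul, h2, zero_mul]
  rw [aeval_map_algebraMap] at h3
  exact ⟨minpoly ℤ α, minpoly.monic hα, by rw [← aeval_def]; exact h3⟩

end

section

variable {Ω : Type} [Field Ω] [CharZero Ω] [IsAlgClosed Ω] {F : Type*} [Field F] [Algebra F Ω]

/-- **Divisibility of values of polynomials `T` such that `T(X)` divides `T(X ^ l)`, relative to a
field `F`.** -/
theorem mainO (H : Ω → ℝ)
    (hH : ∀ (L : Type) [Field L] [NumberField L] (φ : L →+* Ω) (z : L), IsIntegral ℤ z →
      (finrank ℚ L : ℝ) * H (φ z) = lam z) {α : Ω} (hα : IsIntegral ℤ α) (hh : 0 < H α)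
    (hnd : ∀ z w : Ω, z ∈ (minpoly F α).rootSet Ω → w ∈ (minpoly F α).rootSet Ω → z ≠ w →
      ∀ n : ℕ, 0 < n → z ^ n ≠ w ^ n)
    (T : ℤ[X]) (hTm : T.Monic) (hT0 : 1 ≤ T.natDegree)
    (hT : ∀ l : ℕ, 1 ≤ l → T ∣ T.comp (X ^ l)) (q m : ℕ) (hq : 2 ≤ q) (hm : 1 ≤ m)
    (hval : ∃ γ : Ω, IsIntegral ℤ γ ∧ aeval (α ^ m) T = q * γ)
    (x : ℝ) (hx : x = (minpoly F α).natDegree * Real.log q / T.natDegree) :
    min x (x ^ 2 / Real.log (2 * (minpoly F α).natDegree * T.natDegree * q)) / 20 ≤
      m * ((minpoly F α).natDegree * H α) := by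
  have hαF : IsIntegral F α := hα.tower_top
  refine opt (minpoly.natDegree_pos hαF) hT0 hq hx fun k hk => ?_
  exact rel_multiO H hH hα hh q m k (by omega) (by omega) hk T hTm hT0 (fun z hz l hl => by
      obtain ⟨U, hU⟩ := hT l hl
      have hzi := root_integralO hα hz
      obtain ⟨γ, hγ, hγe⟩ := conj_valO hα T (by omega) hval hz
      have h3 : aeval (z ^ (m * l)) T = aeval (z ^ m) T * aeval (z ^ m) U := by
        rw [← map_mul, ← hU, aeval_comp, map_pow, aeval_X, ← pow_mul]
      refine ⟨γ * aeval (z ^ m) U, hγ.mul (aevalO_int (hzi.pow m) U), ?_⟩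
      rw [h3, hγe]
      ring) hnd

end

end Pool.Agent.R329.RelC
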